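import Mathlib

set_option autoImplicit false

namespace Pool.Agent.Results.MP_c909fd_al.CosheavesNotAbelian

open CategoryTheory TopologicalSpace

/-- Classical cosheaves of abelian groups on a topological space: for every open cover of every
open set `U`, the group of `U` has the universal property of the cokernel of the difference of the
two maps from the sum of the groups of the pairwise intersections to the sum of the groups of the
members of the cover. -/
def IsCosheaf {X : Type} [TopologicalSpace X] (F : Opens X ⥤ AddCommGrpCat.{0}) : Prop :=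
  ∀ (ι : Type) (U : Opens X) (V : ι → Opens X) (hV : ∀ i, V i ≤ U), (∀ x ∈ U, ∃ i, x ∈ V i) →
    ∀ (B : AddCommGrpCat.{0}) (φ : ∀ i, F.obj (V i) ⟶ B),
      (∀ i j, F.map (homOfLE (inf_le_left : V i ⊓ V j ≤ V i)) ≫ φ i =
        F.map (homOfLE (inf_le_right : V i ⊓ V j ≤ V j)) ≫ φ j) →
      ∃! ψ : F.obj U ⟶ B, ∀ i, F.map (homOfLE (hV i)) ≫ ψ = φ i

/-- The category of classical cosheaves of abelian groups on a topological space. -/
abbrev CS (X : Type) [TopologicalSpace X] : Type 1 :=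
  ObjectProperty.FullSubcategory
    (fun F : Opens X ⥤ AddCommGrpCat.{0} => IsCosheaf F)

/-! ### A supply of cosheaves -/

section Gen

variable {X : Type} [TopologicalSpace X] {Y : Type} (b : Y → X) (D : Y → Set X)

/-- The generators alive at `U`. -/
def Z (U : Opens X) : Set Y := {y | b y ∈ U ∧ ∀ d ∈ D y, d ∉ U}

open Classical in
/-- The element of the group of `U` given by a generator. -/
noncomputable def gen (U : Opens X) (y : Y) : FreeAbelianGroup (Z b D U) :=
  if h : y ∈ Z b D U then FreeAbelianGroup.of ⟨y, h⟩ else 0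

lemma gen_of {U : Opens X} {y : Y} (h : y ∈ Z b D U) :
    gen b D U y = FreeAbelianGroup.of ⟨y, h⟩ := by
  unfold gen
  rw [dif_pos h]

lemma gen_zero {U : Opens X} {y : Y} (h : y ∉ Z b D U) : gen b D U y = 0 := by
  unfold gen
  rw [dif_neg h]

/-- The transition maps. -/
noncomputable def tr (U U' : Opens X) :
    FreeAbelianGroup (Z b D U) →+ FreeAbelianGroup (Z b D U') :=
  FreeAbelianGroup.lift (fun y => gen b D U' y.1)

lemma tr_of (U U' : Opens X) (y : Z b D U) :
    tr b D U U' (FreeAbelianGroup.of y) = gen b D U' y.1 := by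
  unfold tr
  rw [FreeAbelianGroup.lift_apply_of]

lemma tr_gen {U U' : Opens X} (h : U ≤ U') {y : Y} (hb : b y ∈ U) :
    tr b D U U' (gen b D U y) = gen b D U' y := by
  by_cases hy : y ∈ Z b D U
  · rw [gen_of b D hy, tr_of]
  · rw [gen_zero b D hy, map_zero, gen_zero]
    intro h'
    exact hy ⟨hb, fun d hd hdU => h'.2 d hd (h hdU)⟩

/-- The functor. -/
noncomputable def F : Opens X ⥤ AddCommGrpCat.{0} where
  obj U := AddCommGrpCat.of (FreeAbelianGroup (Z b D U))
  map {U U'} _ := AddCommGrpCat.ofHom (tr b D U U')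
  map_id U := by
    ext y
    show tr b D U U (FreeAbelianGroup.of y) = FreeAbelianGroup.of y
    rw [tr_of, gen_of b D y.2]
  map_comp {U U' U''} h h' := by
    ext y
    show tr b D U U'' (FreeAbelianGroup.of y) =
      tr b D U' U'' (tr b D U U' (FreeAbelianGroup.of y))
    rw [tr_of, tr_of, tr_gen b D (leOfHom h') (leOfHom h y.2.1)]

lemma F_hom_ext {U : Opens X} {B : AddCommGrpCat.{0}} (f g : (F b D).obj U ⟶ B)
    (h : ∀ y : Z b D U, f.hom (FreeAbelianGroup.of y) = g.hom (FreeAbelianGroup.of y)) :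
    f = g := by
  apply AddCommGrpCat.hom_ext
  exact FreeAbelianGroup.lift_ext _ _ h

lemma isCosheaf (hloc : ∀ y, ∀ d ∈ D y, ∀ U : Opens X, d ∈ U → b y ∈ U) :
    IsCosheaf (F b D) := by
  classical
  intro ι U V hV hcov B φ hφ
  have hmem : ∀ {y : Y}, y ∈ Z b D U → ∀ {i : ι}, b y ∈ V i → y ∈ Z b D (V i) := by
    intro y hy i hi
    exact ⟨hi, fun d hd hdV => hy.2 d hd (hV i hdV)⟩
  have comp : ∀ (i j : ι) (y : Y), y ∈ Z b D (V i ⊓ V j) →
      (φ i).hom (gen b D (V i) y) = (φ j).hom (gen b D (V j) y) := by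
    intro i j y hy
    have h := congrArg (fun ψ => ψ.hom (gen b D (V i ⊓ V j) y)) (hφ i j)
    have h1 : (φ i).hom (tr b D (V i ⊓ V j) (V i) (gen b D (V i ⊓ V j) y)) =
        (φ j).hom (tr b D (V i ⊓ V j) (V j) (gen b D (V i ⊓ V j) y)) := h
    rwa [tr_gen b D inf_le_left hy.1, tr_gen b D inf_le_right hy.1] at h1
  have hcov' : ∀ y : Z b D U, ∃ i, b y.1 ∈ V i := fun y => hcov _ y.2.1
  choose c hc using hcov'
  refine ⟨AddCommGrpCat.ofHom (FreeAbelianGroup.lift
    (fun y : Z b D U => (φ (c y)).hom (gen b D (V (c y)) y.1))), ?_, ?_⟩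
  · intro i
    apply F_hom_ext
    intro y
    show FreeAbelianGroup.lift (fun y : Z b D U => (φ (c y)).hom (gen b D (V (c y)) y.1))
      (tr b D (V i) U (FreeAbelianGroup.of y)) = (φ i).hom (FreeAbelianGroup.of y)
    rw [tr_of, ← gen_of b D y.2]
    by_cases hy : y.1 ∈ Z b D U
    · rw [gen_of b D hy, FreeAbelianGroup.lift_apply_of]
      apply comp
      exact ⟨⟨hc ⟨y.1, hy⟩, y.2.1⟩, fun d hd hdV => y.2.2 d hd hdV.2⟩
    · rw [gen_zero b D hy, map_zero]
      have h1 : ∃ d ∈ D y.1, d ∈ U := by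
        by_contra hcon
        push Not at hcon
        exact hy ⟨hV i y.2.1, hcon⟩
      obtain ⟨d, hd, hdU⟩ := h1
      obtain ⟨j, hj⟩ := hcov d hdU
      have hbj : b y.1 ∈ V j := hloc y.1 d hd (V j) hj
      have h2 : y.1 ∈ Z b D (V i ⊓ V j) :=
        ⟨⟨y.2.1, hbj⟩, fun d hd hdV => y.2.2 d hd hdV.1⟩
      have h4 : gen b D (V j) y.1 = 0 := gen_zero b D (fun h3 => h3.2 d hd hj)
      exact ((comp i j y.1 h2).trans
        ((congrArg (fun z => (φ j).hom z) h4).trans (map_zero (φ j).hom))).symm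
  · intro ψ hψ
    apply F_hom_ext
    intro y
    show ψ.hom (FreeAbelianGroup.of y) =
      FreeAbelianGroup.lift (fun y : Z b D U => (φ (c y)).hom (gen b D (V (c y)) y.1))
        (FreeAbelianGroup.of y)
    rw [FreeAbelianGroup.lift_apply_of, ← hψ (c y)]
    show ψ.hom (FreeAbelianGroup.of y) = ψ.hom (tr b D (V (c y)) U (gen b D (V (c y)) y.1))
    rw [tr_gen b D (hV _) (hc y), gen_of b D y.2]

end Gen

/-! ### The space -/

/-- The points of the space. -/
inductive Pt where
  | v : Pt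
  | x : Pt
  | w : ℕ → Pt

/-- The topology: a nonempty open set contains `v`, and if it contains `x` then it contains almost
all points `w k`. -/
instance : TopologicalSpace Pt where
  IsOpen U := (U.Nonempty → Pt.v ∈ U) ∧ (Pt.x ∈ U → ∃ n, ∀ k, n ≤ k → Pt.w k ∈ U)
  isOpen_univ := ⟨fun _ => trivial, fun _ => ⟨0, fun _ _ => trivial⟩⟩
  isOpen_inter := by
    rintro U V ⟨hU, hU'⟩ ⟨hV, hV'⟩
    refine ⟨?_, ?_⟩
    · rintro ⟨p, hp⟩
      exact ⟨hU ⟨p, hp.1⟩, hV ⟨p, hp.2⟩⟩
    · rintro ⟨h1, h2⟩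
      obtain ⟨n, hn⟩ := hU' h1
      obtain ⟨m, hm⟩ := hV' h2
      exact ⟨max n m, fun k hk => ⟨hn k (le_trans (le_max_left _ _) hk),
        hm k (le_trans (le_max_right _ _) hk)⟩⟩
  isOpen_sUnion := by
    intro S hS
    refine ⟨?_, ?_⟩
    · rintro ⟨p, U, hU, hp⟩
      exact ⟨U, hU, (hS U hU).1 ⟨p, hp⟩⟩
    · rintro ⟨U, hU, hx⟩
      obtain ⟨n, hn⟩ := (hS U hU).2 hx
      exact ⟨n, fun k hk => ⟨U, hU, hn k hk⟩⟩

lemma v_mem (U : Opens Pt) {p : Pt} (hp : p ∈ U) : Pt.v ∈ U := U.2.1 ⟨p, hp⟩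

lemma w_mem (U : Opens Pt) (hx : Pt.x ∈ U) : ∃ n, ∀ k, n ≤ k → Pt.w k ∈ U := U.2.2 hx

/-- The open set `{v}`. -/
def Vv : Opens Pt := ⟨{p | p = Pt.v}, ⟨fun _ => rfl, fun h => by cases h⟩⟩

/-- The open set `{v, w j}`. -/
def Wj (j : ℕ) : Opens Pt :=
  ⟨{p | p = Pt.v ∨ p = Pt.w j}, ⟨fun _ => Or.inl rfl, fun h => by rcases h with h | h <;> cases h⟩⟩

/-- The open set of `v`, `x` and the `w k` with `n ≤ k`. -/
def Un (n : ℕ) : Opens Pt :=
  ⟨{p | ∀ k, p = Pt.w k → n ≤ k}, by
    refine ⟨?_, ?_⟩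
    · intro _ k h
      cases h
    · intro _
      refine ⟨n, ?_⟩
      intro k hk j hj
      cases hj
      exact hk⟩

/-- The skyscraper cosheaf at `x`. -/
noncomputable abbrev FS : Opens Pt ⥤ AddCommGrpCat.{0} := F (fun _ : Unit => Pt.x) (fun _ => ∅)

/-- The constant cosheaf. -/
noncomputable abbrev FA : Opens Pt ⥤ AddCommGrpCat.{0} := F (fun _ : ℕ => Pt.v) (fun _ => ∅)

/-- The cosheaf with generators `b k` at `v`, killed at `w k`. -/
noncomputable abbrev FB : Opens Pt ⥤ AddCommGrpCat.{0} :=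
  F (fun _ : ℕ => Pt.v) (fun k => {Pt.w k})

lemma coFS : IsCosheaf FS := isCosheaf _ _ (fun _ _ hd => by cases hd)
lemma coFA : IsCosheaf FA := isCosheaf _ _ (fun _ _ hd => by cases hd)
lemma coFB : IsCosheaf FB := isCosheaf _ _ (fun _ _ _ U hU => v_mem U hU)

/-- The generators of `FB`. -/
noncomputable abbrev gB (U : Opens Pt) (k : ℕ) :
    FreeAbelianGroup (Z (fun _ : ℕ => Pt.v) (fun k => ({Pt.w k} : Set Pt)) U) :=
  gen (fun _ : ℕ => Pt.v) (fun k => {Pt.w k}) U k

/-- The map `f`. -/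
noncomputable def f : FA ⟶ FB where
  app U := AddCommGrpCat.ofHom (FreeAbelianGroup.lift (fun k => gB U k.1 - gB U (k.1 + 1)))
  naturality := by
    intro U U' h
    apply F_hom_ext
    intro k
    show FreeAbelianGroup.lift (fun k => gB U' k.1 - gB U' (k.1 + 1))
        (tr (fun _ : ℕ => Pt.v) (fun _ => ∅) U U' (FreeAbelianGroup.of k)) =
      tr (fun _ : ℕ => Pt.v) (fun k => {Pt.w k}) U U'
        (FreeAbelianGroup.lift (fun k => gB U k.1 - gB U (k.1 + 1)) (FreeAbelianGroup.of k))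
    have hk : Pt.v ∈ U := k.2.1
    have hU : U ≤ U' := leOfHom h
    rw [FreeAbelianGroup.lift_apply_of, map_sub, tr_gen _ _ hU hk, tr_gen _ _ hU hk, tr_of,
      gen_of _ _ (⟨hU hk, fun d hd => by cases hd⟩ :
        k.1 ∈ Z (fun _ : ℕ => Pt.v) (fun _ => ∅) U'), FreeAbelianGroup.lift_apply_of]

lemma gB_finite (U : Opens Pt) (hx : Pt.x ∈ U) : (Function.support (gB U)).Finite := by
  obtain ⟨n, hn⟩ := w_mem U hx
  apply (Set.finite_lt_nat n).subset
  intro k hk
  show k < n
  by_contra hkn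
  push Not at hkn
  apply hk
  apply gen_zero
  intro h
  exact h.2 (Pt.w k) rfl (hn k hkn)

/-- The map `g`. -/
noncomputable def g : FS ⟶ FB where
  app U := AddCommGrpCat.ofHom (FreeAbelianGroup.lift (fun _ => ∑ᶠ k, gB U k))
  naturality := by
    intro U U' h
    apply F_hom_ext
    intro k
    show FreeAbelianGroup.lift (fun _ => ∑ᶠ k, gB U' k)
        (tr (fun _ : Unit => Pt.x) (fun _ => ∅) U U' (FreeAbelianGroup.of k)) =
      tr (fun _ : ℕ => Pt.v) (fun k => {Pt.w k}) U U'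
        (FreeAbelianGroup.lift (fun _ => ∑ᶠ k, gB U k) (FreeAbelianGroup.of k))
    have hk : Pt.x ∈ U := k.2.1
    have hU : U ≤ U' := leOfHom h
    rw [FreeAbelianGroup.lift_apply_of, tr_of,
      gen_of _ _ (⟨hU hk, fun d hd => by cases hd⟩ :
        k.1 ∈ Z (fun _ : Unit => Pt.x) (fun _ => ∅) U'), FreeAbelianGroup.lift_apply_of,
      AddMonoidHom.map_finsum _ (gB_finite U hk)]
    apply finsum_congr
    intro j
    rw [tr_gen _ _ hU (v_mem U hk)]

/-! ### Coordinates -/

section Coord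

variable (D : ℕ → Set Pt)

/-- The coordinate with index `i`. -/
noncomputable def cc (U : Opens Pt) (i : ℕ) :
    FreeAbelianGroup (Z (fun _ : ℕ => Pt.v) D U) →+ ℤ :=
  FreeAbelianGroup.lift (fun k => if k.1 = i then 1 else 0)

lemma cc_gen (U : Opens Pt) (i : ℕ) (k : ℕ) (hk : i ∈ Z (fun _ : ℕ => Pt.v) D U) :
    cc D U i (gen (fun _ : ℕ => Pt.v) D U k) = if k = i then 1 else 0 := by
  unfold cc
  by_cases h : k ∈ Z (fun _ : ℕ => Pt.v) D U
  · rw [gen_of _ _ h, FreeAbelianGroup.lift_apply_of]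
  · rw [gen_zero _ _ h, map_zero, if_neg]
    rintro rfl
    exact h hk

end Coord

/-- The type of the group of `FA` at `U`. -/
abbrev GA (U : Opens Pt) : Type := FreeAbelianGroup (Z (fun _ : ℕ => Pt.v) (fun _ => ∅) U)

lemma ccA_fin (U : Opens Pt) (a : GA U) : ∃ N, ∀ i, N ≤ i → cc (fun _ => ∅) U i a = 0 := by
  induction a using FreeAbelianGroup.induction_on with
  | zero => exact ⟨0, fun i _ => map_zero _⟩
  | of k =>
      refine ⟨k.1 + 1, fun i hi => ?_⟩
      unfold cc
      rw [FreeAbelianGroup.lift_apply_of, if_neg (by omega)]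
  | neg k h =>
      obtain ⟨N, hN⟩ := h
      exact ⟨N, fun i hi => by rw [map_neg, hN i hi, neg_zero]⟩
  | add x y hx hy =>
      obtain ⟨N, hN⟩ := hx
      obtain ⟨M, hM⟩ := hy
      exact ⟨max N M, fun i hi => by
        rw [map_add, hN i (le_trans (le_max_left _ _) hi), hM i (le_trans (le_max_right _ _) hi),
          add_zero]⟩

lemma eq_zero_of_cc (U : Opens Pt) (a : GA U) (h : ∀ i, cc (fun _ => ∅) U i a = 0) : a = 0 := by
  apply (FreeAbelianGroup.equivFinsupp _).injective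
  rw [map_zero]
  ext k
  have h1 : ∀ a : GA U, (FreeAbelianGroup.equivFinsupp _ a) k = cc (fun _ => ∅) U k.1 a := by
    intro a
    induction a using FreeAbelianGroup.induction_on with
    | zero => rw [map_zero, map_zero]; rfl
    | of j =>
        unfold cc
        rw [FreeAbelianGroup.lift_apply_of, FreeAbelianGroup.equivFinsupp_apply,
          FreeAbelianGroup.toFinsupp_of, Finsupp.single_apply]
        simp only [Subtype.ext_iff]
    | neg j h =>
        rw [map_neg, map_neg, ← h]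
        rfl
    | add x y hx hy =>
        rw [map_add, map_add, ← hx, ← hy]
        rfl
  rw [h1]
  exact h k.1

lemma ccA_tr {U U' : Opens Pt} (h : U ≤ U') (a : GA U) (i : ℕ) :
    cc (fun _ => ∅) U' i (tr (fun _ : ℕ => Pt.v) (fun _ => ∅) U U' a) =
      cc (fun _ => ∅) U i a := by
  have h1 : (cc (fun _ => ∅) U' i).comp (tr (fun _ : ℕ => Pt.v) (fun _ => ∅) U U') =
      cc (fun _ => ∅) U i := by
    apply FreeAbelianGroup.lift_ext
    intro k
    have hk : Pt.v ∈ U := k.2.1
    rw [AddMonoidHom.comp_apply, tr_of]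
    rw [gen_of _ _ (⟨h hk, fun d hd => by cases hd⟩ :
        k.1 ∈ Z (fun _ : ℕ => Pt.v) (fun _ => ∅) U')]
    unfold cc
    rw [FreeAbelianGroup.lift_apply_of, FreeAbelianGroup.lift_apply_of]
  exact DFunLike.congr_fun h1 a

lemma memZB {U : Opens Pt} (hv : Pt.v ∈ U) {i : ℕ} (hi : Pt.w i ∉ U) :
    i ∈ Z (fun _ : ℕ => Pt.v) (fun k => ({Pt.w k} : Set Pt)) U := by
  refine ⟨hv, ?_⟩
  rintro d rfl
  exact hi

lemma ccB_f_zero (U : Opens Pt) (h0 : Pt.w 0 ∉ U) (a : GA U) :
    cc (fun k => {Pt.w k}) U 0 ((f.app U).hom a) = cc (fun _ => ∅) U 0 a := by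
  have h1 : (cc (fun k => {Pt.w k}) U 0).comp
      (FreeAbelianGroup.lift (fun k : Z (fun _ : ℕ => Pt.v) (fun _ => ∅) U =>
        gB U k.1 - gB U (k.1 + 1))) = cc (fun _ => ∅) U 0 := by
    apply FreeAbelianGroup.lift_ext
    intro k
    have hk : Pt.v ∈ U := k.2.1
    rw [AddMonoidHom.comp_apply, FreeAbelianGroup.lift_apply_of, map_sub,
      cc_gen _ _ _ _ (memZB hk h0), cc_gen _ _ _ _ (memZB hk h0)]
    unfold cc
    rw [FreeAbelianGroup.lift_apply_of]
    simp
  exact DFunLike.congr_fun h1 a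

lemma ccB_f_succ (U : Opens Pt) (i : ℕ) (h0 : Pt.w (i + 1) ∉ U) (a : GA U) :
    cc (fun k => {Pt.w k}) U (i + 1) ((f.app U).hom a) =
      cc (fun _ => ∅) U (i + 1) a - cc (fun _ => ∅) U i a := by
  have h1 : (cc (fun k => {Pt.w k}) U (i + 1)).comp
      (FreeAbelianGroup.lift (fun k : Z (fun _ : ℕ => Pt.v) (fun _ => ∅) U =>
        gB U k.1 - gB U (k.1 + 1))) = cc (fun _ => ∅) U (i + 1) - cc (fun _ => ∅) U i := by
    apply FreeAbelianGroup.lift_ext
    intro k
    have hk : Pt.v ∈ U := k.2.1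
    rw [AddMonoidHom.comp_apply, FreeAbelianGroup.lift_apply_of, map_sub,
      cc_gen _ _ _ _ (memZB hk h0), cc_gen _ _ _ _ (memZB hk h0), AddMonoidHom.sub_apply]
    unfold cc
    rw [FreeAbelianGroup.lift_apply_of, FreeAbelianGroup.lift_apply_of]
    simp
  exact DFunLike.congr_fun h1 a

/-! ### The map `f` is a monomorphism of cosheaves -/

/-- The open set of `v` and the `w k` with `k ≤ n`. -/
def Ln (n : ℕ) : Opens Pt :=
  ⟨{p | p ≠ Pt.x ∧ ∀ k, p = Pt.w k → k ≤ n}, by
    refine ⟨?_, ?_⟩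
    · intro _
      refine ⟨?_, ?_⟩
      · intro h
        cases h
      · intro k h
        cases h
    · intro h
      exact absurd rfl h.1⟩

lemma cover_two (n : ℕ) (p : Pt) : p ∈ Un (n + 1) ∨ p ∈ Ln n := by
  rcases p with _ | _ | k
  · left
    intro k h
    cases h
  · left
    intro k h
    cases h
  · by_cases hk : n + 1 ≤ k
    · left
      intro j hj
      cases hj
      exact hk
    · right
      refine ⟨?_, ?_⟩
      · intro h
        cases h
      · intro j hj
        cases hj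
        omega

lemma cc_zero_of_ker (U : Opens Pt) (i : ℕ)
    (hU : (∀ k, k ≤ i → Pt.w k ∉ U) ∨ (∀ k, i < k → Pt.w k ∉ U))
    (a : GA U) (ha : (f.app U).hom a = 0) : cc (fun _ => ∅) U i a = 0 := by
  rcases hU with hU | hU
  · have h1 : ∀ j, j ≤ i → cc (fun _ => ∅) U j a = 0 := by
      intro j
      induction j with
      | zero =>
          intro hj
          have := ccB_f_zero U (hU 0 hj) a
          rw [ha] at this
          rw [← this]
          exact map_zero _
      | succ j ih =>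
          intro hj
          have h2 := ccB_f_succ U j (hU _ hj) a
          rw [ha, ih (by omega), sub_zero] at h2
          rw [← h2]
          exact map_zero _
    exact h1 i le_rfl
  · have h1 : ∀ j, cc (fun _ => ∅) U (i + j) a = cc (fun _ => ∅) U i a := by
      intro j
      induction j with
      | zero => rfl
      | succ j ih =>
          have h2 := ccB_f_succ U (i + j) (hU _ (by omega)) a
          rw [ha] at h2
          have h3 : cc (fun k => {Pt.w k}) U (i + j + 1) 0 = 0 := map_zero _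
          have h4 : cc (fun _ => ∅) U (i + j + 1) a - cc (fun _ => ∅) U (i + j) a = 0 :=
            h2.symm.trans h3
          rw [← ih, ← add_assoc]
          linarith
    obtain ⟨N, hN⟩ := ccA_fin U a
    rw [← h1 N]
    exact hN _ (by omega)

lemma mono_aux (E : Opens Pt ⥤ AddCommGrpCat.{0}) (hE : IsCosheaf E) (u : E ⟶ FA)
    (hu : u ≫ f = 0) : u = 0 := by
  ext U e
  show (u.app U).hom e = 0
  apply eq_zero_of_cc U
  intro i
  let V : Bool → Opens Pt := fun t => if t then U ⊓ Un (i + 1) else U ⊓ Ln i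
  have hV : ∀ t, V t ≤ U := by
    intro t
    cases t
    · exact inf_le_left
    · exact inf_le_left
  have hcov : ∀ p ∈ U, ∃ t, p ∈ V t := by
    intro p hp
    rcases cover_two i p with h | h
    · exact ⟨true, hp, h⟩
    · exact ⟨false, hp, h⟩
  have hVi : ∀ t, (∀ k, k ≤ i → Pt.w k ∉ V t) ∨ (∀ k, i < k → Pt.w k ∉ V t) := by
    intro t
    cases t
    · right
      rintro k hk ⟨_, h⟩
      have := h.2 k rfl
      omega
    · left
      rintro k hk ⟨_, h⟩
      have := h k rfl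
      omega
  let B : AddCommGrpCat.{0} := AddCommGrpCat.of ℤ
  obtain ⟨ψ, hψ, huniq⟩ := hE Bool U V hV hcov B (fun _ => 0) (fun i j => by
    rw [Limits.comp_zero, Limits.comp_zero])
  have h1 : u.app U ≫ AddCommGrpCat.ofHom (cc (fun _ => ∅) U i) = ψ := by
    apply huniq
    intro t
    ext y
    show cc (fun _ => ∅) U i ((u.app U).hom ((E.map (homOfLE (hV t))).hom y)) = 0
    have h2 := congrArg (fun χ => χ.hom y) (u.naturality (homOfLE (hV t)))
    have h3 : (u.app U).hom ((E.map (homOfLE (hV t))).hom y) =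
        tr (fun _ : ℕ => Pt.v) (fun _ => ∅) (V t) U ((u.app (V t)).hom y) := h2
    have h4 : (f.app (V t)).hom ((u.app (V t)).hom y) = 0 :=
      congrArg (fun χ => (χ.app (V t)).hom y) hu
    exact (congrArg (cc (fun _ => ∅) U i) h3).trans
      ((ccA_tr (hV t) ((u.app (V t)).hom y) i).trans
        (cc_zero_of_ker (V t) i (hVi t) ((u.app (V t)).hom y) h4))
  have h5 : (0 : E.obj U ⟶ B) = ψ := by
    apply huniq
    intro t
    exact Limits.comp_zero
  rw [← h5] at h1
  exact congrArg (fun χ => χ.hom e) h1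

/-! ### The map `g` -/

lemma g_no_lift (h : FS ⟶ FA) (hh : h ≫ f = g) : False := by
  have hx : ∀ n, (() : Unit) ∈ Z (fun _ : Unit => Pt.x) (fun _ => ∅) (Un n) := by
    intro n
    refine ⟨?_, ?_⟩
    · intro k hk
      cases hk
    · intro d hd
      cases hd
  have htop : (() : Unit) ∈ Z (fun _ : Unit => Pt.x) (fun _ => ∅) (⊤ : Opens Pt) :=
    ⟨trivial, fun d hd => by cases hd⟩
  let a : GA ⊤ := (h.app ⊤).hom (FreeAbelianGroup.of ⟨(), htop⟩)
  let an : ∀ n, GA (Un n) := fun n => (h.app (Un n)).hom (FreeAbelianGroup.of ⟨(), hx n⟩)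
  have han : ∀ n, tr (fun _ : ℕ => Pt.v) (fun _ => ∅) (Un n) ⊤ (an n) = a := by
    intro n
    have h1 := congrArg (fun χ => χ.hom (FreeAbelianGroup.of ⟨(), hx n⟩))
      (h.naturality (homOfLE (le_top : Un n ≤ ⊤)))
    have h2 : (h.app ⊤).hom (tr (fun _ : Unit => Pt.x) (fun _ => ∅) (Un n) ⊤
        (FreeAbelianGroup.of ⟨(), hx n⟩)) =
      tr (fun _ : ℕ => Pt.v) (fun _ => ∅) (Un n) ⊤ (an n) := h1
    rw [← h2, tr_of, gen_of _ _ htop]
  have hcoord : ∀ n i, cc (fun _ => ∅) (Un n) i (an n) = cc (fun _ => ∅) ⊤ i a := by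
    intro n i
    rw [← han n, ccA_tr le_top]
  have hg : ∀ n i, i < n → cc (fun k => {Pt.w k}) (Un n) i ((f.app (Un n)).hom (an n)) = 1 := by
    intro n i hi
    have h1 : (f.app (Un n)).hom (an n) = ∑ᶠ k, gB (Un n) k := by
      have h2 := congrArg (fun χ => (χ.app (Un n)).hom (FreeAbelianGroup.of ⟨(), hx n⟩)) hh
      have h3 : (f.app (Un n)).hom (an n) =
        FreeAbelianGroup.lift (fun _ => ∑ᶠ k, gB (Un n) k) (FreeAbelianGroup.of
          (⟨(), hx n⟩ : Z (fun _ : Unit => Pt.x) (fun _ => ∅) (Un n))) := h2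
      rw [h3, FreeAbelianGroup.lift_apply_of]
    rw [h1]
    have hwi : Pt.w i ∉ Un n := by
      intro hw
      have := hw i rfl
      omega
    have hvn : Pt.v ∈ Un n := v_mem _ (hx n).1
    rw [AddMonoidHom.map_finsum _ (gB_finite _ (hx n).1)]
    rw [finsum_eq_single _ i]
    · rw [cc_gen _ _ _ _ (memZB hvn hwi), if_pos rfl]
    · intro j hj
      rw [cc_gen _ _ _ _ (memZB hvn hwi), if_neg hj]
  have key : ∀ i, cc (fun _ => ∅) ⊤ i a = (i : ℤ) + 1 := by
    intro i
    induction i with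
    | zero =>
        have h1 := ccB_f_zero (Un 1) (by intro hw; have := hw 0 rfl; omega) (an 1)
        rw [hg 1 0 (by omega), hcoord] at h1
        rw [← h1]
        norm_num
    | succ i ih =>
        have h1 := ccB_f_succ (Un (i + 2)) i (by intro hw; have := hw (i + 1) rfl; omega)
          (an (i + 2))
        rw [hg (i + 2) (i + 1) (by omega), hcoord, hcoord, ih] at h1
        push_cast
        linarith
  obtain ⟨N, hN⟩ := ccA_fin ⊤ a
  have h1 := hN N le_rfl
  rw [key N] at h1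
  omega

lemma g_killed (E : Opens Pt ⥤ AddCommGrpCat.{0}) (c : FB ⟶ E) (hc : f ≫ c = 0) :
    g ≫ c = 0 := by
  apply NatTrans.ext
  funext U
  apply F_hom_ext
  intro k
  have hx : Pt.x ∈ U := k.2.1
  have hv : Pt.v ∈ U := v_mem U hx
  show (c.app U).hom (FreeAbelianGroup.lift (fun _ => ∑ᶠ k, gB U k) (FreeAbelianGroup.of k)) = 0
  rw [FreeAbelianGroup.lift_apply_of]
  have h1 : ∀ j, (c.app U).hom (gB U j) = (c.app U).hom (gB U (j + 1)) := by
    intro j
    have hj : j ∈ Z (fun _ : ℕ => Pt.v) (fun _ => ∅) U := ⟨hv, fun d hd => by cases hd⟩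
    have h2 := congrArg (fun χ => (χ.app U).hom (FreeAbelianGroup.of ⟨j, hj⟩)) hc
    have h3 : (c.app U).hom (FreeAbelianGroup.lift
        (fun k : Z (fun _ : ℕ => Pt.v) (fun _ => ∅) U => gB U k.1 - gB U (k.1 + 1))
          (FreeAbelianGroup.of ⟨j, hj⟩)) = 0 := h2
    rw [FreeAbelianGroup.lift_apply_of] at h3
    have h4 : (c.app U).hom (gB U j - gB U (j + 1)) =
        (c.app U).hom (gB U j) - (c.app U).hom (gB U (j + 1)) := map_sub _ _ _
    have h5 := h4.symm.trans h3
    exact sub_eq_zero.1 h5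
  have h2 : ∀ i j, (c.app U).hom (gB U j) = (c.app U).hom (gB U (j + i)) := by
    intro i
    induction i with
    | zero => intro j; rfl
    | succ i ih =>
        intro j
        rw [ih j, h1 (j + i)]
        rfl
  obtain ⟨n, hn⟩ := w_mem U hx
  have h3 : ∀ j, (c.app U).hom (gB U j) = 0 := by
    intro j
    rw [h2 n j]
    have h4 : gB U (j + n) = 0 := gen_zero _ _ (fun h => h.2 (Pt.w (j + n)) rfl (hn _ (by omega)))
    exact (congrArg (fun z => (c.app U).hom z) h4).trans (map_zero (c.app U).hom)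
  have h6 : (c.app U).hom (∑ᶠ k, gB U k) = ∑ᶠ k, (c.app U).hom (gB U k) :=
    AddMonoidHom.map_finsum _ (gB_finite U hx)
  refine h6.trans ?_
  rw [finsum_congr h3]
  exact finsum_zero

/-! ### The conclusion -/

lemma lift_of_abelian {C : Type 1} [Category.{0} C] (hab : Abelian C) {X Y T : C} (p : X ⟶ Y)
    [Mono p] (q : T ⟶ Y) (H : ∀ (W : C) (c c' : Y ⟶ W), p ≫ c = p ≫ c' → q ≫ c = q ≫ c') :
    ∃ h : T ⟶ X, h ≫ p = q := by
  let _ := hab
  have h1 := H _ (Limits.cokernel.π p) 0 (by rw [Limits.cokernel.condition, Limits.comp_zero])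
  rw [Limits.comp_zero] at h1
  exact ⟨Abelian.monoLift p q h1, Abelian.monoLift_comp p q h1⟩

/-- There is a topological space whose category of classical cosheaves of abelian groups is not
abelian. -/
theorem result : ∃ (X : Type) (_ : TopologicalSpace X), ¬ Nonempty (Abelian (CS X)) := by
  refine ⟨Pt, inferInstance, ?_⟩
  rintro ⟨hab⟩
  let A : CS Pt := ⟨FA, coFA⟩
  let B : CS Pt := ⟨FB, coFB⟩
  let S : CS Pt := ⟨FS, coFS⟩
  let p : A ⟶ B := ObjectProperty.homMk f
  let q : S ⟶ B := ObjectProperty.homMk g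
  have : Mono p := by
    constructor
    intro E u u' huu
    apply ObjectProperty.hom_ext
    have h1 : u.hom ≫ f = u'.hom ≫ f := congrArg (fun z => z.hom) huu
    have h2 : (u.hom - u'.hom) ≫ f = 0 := by
      rw [Preadditive.sub_comp, h1, sub_self]
    exact sub_eq_zero.1 (mono_aux E.obj E.property _ h2)
  obtain ⟨h, hh⟩ := lift_of_abelian hab p q (by
    intro W c c' hcc
    apply ObjectProperty.hom_ext
    have h1 : f ≫ c.hom = f ≫ c'.hom := congrArg (fun z => z.hom) hcc
    have h2 : f ≫ (c.hom - c'.hom) = 0 := by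
      rw [Preadditive.comp_sub, h1, sub_self]
    have h3 := g_killed W.obj _ h2
    rw [Preadditive.comp_sub] at h3
    exact sub_eq_zero.1 h3)
  exact g_no_lift h.hom (congrArg (fun z => z.hom) hh)

end Pool.Agent.Results.MP_c909fd_al.CosheavesNotAbelian
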